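import Pool.Agent.HKM.Gen93

/-!
# MP_f7c501: for which `f` is `PSPACE_f = NPSPACE_f` for Hamkins–Kidder machines?

The complete answer for the definitions of the problem file, for both space measures.
-/

set_option autoImplicit false

namespace Pool.Agent.Results.MP_f7c501_lc.AllBounds

open Order Ordinal Pool.Agent.HKM

/-- deterministic space of kind `1`, read as `(sup ω₁^c) + 1` -/
noncomputable def spaceOut {Q : Type} (b : Ordinal.{0} → Conf Q) (ξ : Ordinal.{0}) :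
    WithTop Ordinal.{0} :=
  (⨆ (γ : Ordinal.{0}) (_ : γ < ξ), (ck (whole (b γ).tp) : WithTop Ordinal.{0})) + 1

/-- space of kind `1` of a branch, read as `(sup ω₁^c) + 1` -/
noncomputable def scratchSpaceOut {Q : Type} (b : Ordinal.{0} → Conf Q) (ξ : Ordinal.{0}) :
    WithTop Ordinal.{0} :=
  (⨆ (γ : Ordinal.{0}) (_ : γ < ξ), (ck ((b γ).tp 1) : WithTop Ordinal.{0})) + 1

/-- `PSPACE_f^{HK,1}` with `spaceOut` -/
def PSPACEOut (f : Rl → Ordinal.{0}) : Set (Set Rl) :=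
  {A | ∃ T : DMachine, T.Decides A ∧
    ∀ x b ξ, T.toN.Branch x b ξ → spaceOut b ξ < (f x : WithTop Ordinal.{0})}

/-- `NPSPACE_f^{HK,1}` with `scratchSpaceOut` -/
def NPSPACEOut (f : Rl → Ordinal.{0}) : Set (Set Rl) :=
  {A | ∃ T : NMachine, T.Decides A ∧
    ∀ x b ξ, T.Branch x b ξ → scratchSpaceOut b ξ < (f x : WithTop Ordinal.{0})}

/-- the deterministic class if only the scratch tape counts, also for deterministic machines -/
def PSPACEScratch (i : Fin 2) (f : Rl → Ordinal.{0}) : Set (Set Rl) :=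
  {A | ∃ T : DMachine, T.Decides A ∧
    ∀ x b ξ, T.toN.Branch x b ξ → scratchSpace i x b ξ < (f x : WithTop Ordinal.{0})}

theorem zero_aux (f : Rl → Ordinal.{0}) : PSPACE 0 f = NPSPACE 0 f ↔ ∃ x, f x ≤ 1 := by
  rw [(main_classes 0 f).1]
  refine exists_congr fun x => ?_
  rw [size_zero_blank]
  exact_mod_cast Iff.rfl

theorem one_aux (f : Rl → Ordinal.{0}) : PSPACE 1 f = NPSPACE 1 f ↔ ∃ x, f x ≤ omegaCK + 1 := by
  rw [(main_classes 1 f).1]
  refine exists_congr fun x => ?_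
  rw [size_one_blank]
  exact WithTop.coe_le_coe

theorem le_out {Q : Type} (F : Conf Q → Rl) (b : Ordinal.{0} → Conf Q) (ξ : Ordinal.{0})
    (h0 : ξ ≠ 0) : ((omegaCK + 1 : Ordinal.{0}) : WithTop Ordinal.{0}) ≤
      (⨆ (γ : Ordinal.{0}) (_ : γ < ξ), (ck (F (b γ)) : WithTop Ordinal.{0})) + 1 := by
  have h1 : ((omegaCK : Ordinal.{0}) : WithTop Ordinal.{0}) ≤
      ⨆ (γ : Ordinal.{0}) (_ : γ < ξ), (ck (F (b γ)) : WithTop Ordinal.{0}) := by
    refine le_trans ?_ (le_iSup₂ (f := fun (γ : Ordinal.{0}) (_ : γ < ξ) =>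
      (ck (F (b γ)) : WithTop Ordinal.{0})) 0 (pos_iff_ne_zero.2 h0))
    rw [← ck_blank]
    exact WithTop.coe_le_coe.2 (ck_blank_le _)
  calc ((omegaCK + 1 : Ordinal.{0}) : WithTop Ordinal.{0})
      = (omegaCK : WithTop Ordinal.{0}) + 1 := by push_cast; rfl
    _ ≤ _ := by gcongr

theorem out_AM {x : Rl} {b : Ordinal.{0} → Conf (St TT.S)} {ξ : Ordinal.{0}}
    (hb : TT.machine.Branch x b ξ) :
    scratchSpaceOut b ξ ≤ ((omegaCK + 1 : Ordinal.{0}) : WithTop Ordinal.{0}) := by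
  have h1 : (⨆ (γ : Ordinal.{0}) (_ : γ < ξ), (ck ((b γ).tp 1) : WithTop Ordinal.{0})) ≤
      ((omegaCK : Ordinal.{0}) : WithTop Ordinal.{0}) := by
    refine iSup₂_le fun γ hγ => ?_
    rw [TT.scratch_blank hb.1 γ hγ.le, ck_blank]
  calc scratchSpaceOut b ξ
      = (⨆ (γ : Ordinal.{0}) (_ : γ < ξ), (ck ((b γ).tp 1) : WithTop Ordinal.{0})) + 1 := rfl
    _ ≤ (omegaCK : WithTop Ordinal.{0}) + 1 := by gcongr
    _ = ((omegaCK + 1 : Ordinal.{0}) : WithTop Ordinal.{0}) := by push_cast; rfl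

theorem out_aux (f : Rl → Ordinal.{0}) : PSPACEOut f = NPSPACEOut f ↔ ∃ x, f x ≤ omegaCK + 1 := by
  have h := gen_main (fun _ _ b ξ => spaceOut b ξ) (fun _ _ b ξ => scratchSpaceOut b ξ)
    (s := ((omegaCK + 1 : Ordinal.{0}) : WithTop Ordinal.{0})) (s₀ := 0 + 1)
    (fun Q x b ξ h0 => le_out (fun c => whole c.tp) b ξ h0)
    (fun Q x b => congrArg (· + 1) (iSup_lt_zero _))
    (fun Q x b ξ h0 => le_out (fun c => c.tp 1) b ξ h0)
    (fun Q x b => congrArg (· + 1) (iSup_lt_zero _)) (fun x b ξ hb => out_AM hb) f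
  refine Iff.trans h ?_
  refine exists_congr fun x => ?_
  exact WithTop.coe_le_coe

theorem scratch_aux (i : Fin 2) (s : Ordinal.{0}) (hs : ∀ x, size i x blank = (s : WithTop _))
    (f : Rl → Ordinal.{0}) : PSPACEScratch i f = NPSPACE i f ↔ ∃ x, f x ≤ s := by
  have h := gen_main (fun _ x b ξ => scratchSpace i x b ξ) (fun _ x b ξ => scratchSpace i x b ξ)
    (s := (s : WithTop Ordinal.{0})) (s₀ := 0)
    (fun Q x b ξ h0 => by rw [← hs x]; exact blank_le_scratchSpace i x b h0)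
    (fun Q x b => scratchSpace_zero i x b)
    (fun Q x b ξ h0 => by rw [← hs x]; exact blank_le_scratchSpace i x b h0)
    (fun Q x b => scratchSpace_zero i x b)
    (fun x b ξ hb => by rw [← hs x]; exact scratch_AM i hb) f
  refine Iff.trans h ?_
  refine exists_congr fun x => ?_
  exact WithTop.coe_le_coe

/-- The answer to Q1 for `i = 0` and `i = 1`, and for the other readings of the two formulas. -/
theorem result :
    (∀ f : Rl → Ordinal.{0},
      (PSPACE 0 f = NPSPACE 0 f ↔ ∃ x, f x ≤ 1) ∧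
      (PSPACE 1 f = NPSPACE 1 f ↔ ∃ x, f x ≤ omegaCK + 1) ∧
      (PSPACEOut f = NPSPACEOut f ↔ ∃ x, f x ≤ omegaCK + 1) ∧
      (PSPACEScratch 0 f = NPSPACE 0 f ↔ ∃ x, f x ≤ 1) ∧
      (PSPACEScratch 1 f = NPSPACE 1 f ↔ ∃ x, f x ≤ omegaCK + 1)) ∧
    ∃ A : Set Rl, (∀ T : DMachine, ¬ T.Decides A) ∧
      (∀ f : Rl → Ordinal.{0}, (∀ x, 1 < f x) → A ∈ NPSPACE 0 f) ∧
      (∀ f : Rl → Ordinal.{0}, (∀ x, omegaCK + 1 < f x) → A ∈ NPSPACE 1 f ∧ A ∈ NPSPACEOut f) := by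
  refine ⟨fun f => ⟨zero_aux f, one_aux f, out_aux f, ?_, ?_⟩,
    AM, AM_not_decides, fun f hf => ?_, fun f hf => ⟨?_, ?_⟩⟩
  · exact scratch_aux 0 1 (fun x => by rw [size_zero_blank]; rfl) f
  · exact scratch_aux 1 (omegaCK + 1) size_one_blank f
  · refine AM_mem 0 f fun x => ?_
    rw [size_zero_blank]
    exact_mod_cast hf x
  · refine AM_mem 1 f fun x => ?_
    rw [size_one_blank]
    exact WithTop.coe_lt_coe.2 (hf x)
  · exact ⟨TT.machine, AM_decides, fun x b ξ hb =>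
      lt_of_le_of_lt (out_AM hb) (WithTop.coe_lt_coe.2 (hf x))⟩

end Pool.Agent.Results.MP_f7c501_lc.AllBounds
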